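import Pool.Agent.U554.TZ.ConeTwo

/-!
# The boundary of the cone
-/

set_option autoImplicit false

open MvPolynomial Pool.Agent.Y116.UV Pool.Agent.U554.TU

namespace Pool.Agent.U554.TZ

variable {k : Type} [CommRing k] {n D : ℕ}

section

variable {G : Finset (MvPolynomial (Fin n) k)} {Q : Type} [CommRing Q]
  [Algebra k Q] {y0 : Q} {y : Fin n → Q} {z : Mon n D → Q}

lemma csol_map {B B' : Type} [CommRing B] [Algebra k B] [CommRing B'] [Algebra k B'] {y0 : B}
    {y : Fin n → B} {z : Mon n D → B} (h : CSol G y0 y z) (ι : B →ₐ[k] B') :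
    CSol G (ι y0) (fun i => ι (y i)) (fun m => ι (z m)) := by
  refine ⟨fun m i hm => ?_, fun g hg => ?_⟩
  · rw [← map_mul, ← map_mul, ← map_add, h.mul m i hm, map_zero]
  · have h1 := congrArg ι (h.eqn g hg)
    rw [map_zero, map_mul, map_sum] at h1
    refine Eq.trans ?_ h1
    congr 1
    refine Finset.sum_congr rfl fun m _ => ?_
    rw [map_mul, ι.commutes]

/-- **The part `y_0 ≠ 0` of the boundary `y_0 z_0 = 0` of the cone.** -/
theorem cone_bd_open (h : CRep G y0 y z) :
    Nonempty (Localization.Away (Ideal.Quotient.mk (Ideal.span {y0 * z (mo n D)}) y0) ≃ₐ[k]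
      LaurentPolynomial (MvPolynomial (Fin n) k)) := by
  let Q' : Type := Q ⧸ Ideal.span {y0 * z (mo n D)}
  let π : Q →ₐ[k] Q' := Ideal.Quotient.mkₐ k (Ideal.span {y0 * z (mo n D)})
  have hπ : Function.Surjective π := Ideal.Quotient.mkₐ_surjective k _
  let c : Q' := Ideal.Quotient.mk (Ideal.span {y0 * z (mo n D)}) y0
  let ι : Q' →ₐ[k] Localization.Away c := IsScalarTower.toAlgHom k Q' _
  let κ : MvPolynomial (Fin n) k →ₐ[k] LaurentPolynomial (MvPolynomial (Fin n) k) :=
    { (LaurentPolynomial.C : MvPolynomial (Fin n) k →+* _) with commutes' := fun _ => rfl }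
  let t : LaurentPolynomial (MvPolynomial (Fin n) k) := LaurentPolynomial.T 1
  have htu : IsUnit t := LaurentPolynomial.isUnit_T 1
  -- the first homomorphism
  have hS : CSol G t (fun i => κ (X i)) (fun _ : Mon n D => 0) := by
    refine ⟨fun m i hm => by rw [mul_zero, mul_zero, add_zero], fun g hg => ?_⟩
    rw [Finset.sum_eq_zero, mul_zero]
    intro m _
    rw [mul_zero]
  obtain ⟨f0, hf00, hf0y, hf0z⟩ := h.ex _ _ _ _ hS
  have hf0' : ∀ a ∈ Ideal.span {y0 * z (mo n D)}, f0 a = 0 := by
    intro a ha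
    obtain ⟨b, rfl⟩ := Ideal.mem_span_singleton'.mp ha
    rw [map_mul, map_mul, hf0z, mul_zero, mul_zero]
  let f1 : Q' →ₐ[k] LaurentPolynomial (MvPolynomial (Fin n) k) :=
    Ideal.Quotient.liftₐ (Ideal.span {y0 * z (mo n D)}) f0 hf0'
  have hf1 : ∀ q, f1 (π q) = f0 q := fun q => rfl
  obtain ⟨f, hf⟩ := loc_ex c f1 (by
    have h1 : f1 c = t := (hf1 y0).trans hf00
    rw [h1]
    exact htu)
  change ∀ a, f (ι a) = f1 a at hf
  -- the second homomorphism
  obtain ⟨u, hu⟩ := loc_unit c
  change (u : Localization.Away c) = ι c at hu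
  let g0 : MvPolynomial (Fin n) k →ₐ[k] Localization.Away c := aeval fun i => ι (π (y i))
  have hg0 : ∀ i, g0 (X i) = ι (π (y i)) := fun i => aeval_X _ i
  obtain ⟨g, hgC, hgT⟩ := lau_ex g0 u
  have hsol := csol_map h.sol (ι.comp π)
  have huy : (↑u⁻¹ : Localization.Away c) * (ι.comp π) y0 = 1 := by
    change _ * ι c = 1
    rw [← hu, Units.inv_mul]
  have hz0 : (ι.comp π) (z (mo n D)) = 0 := by
    have h1 : π (y0 * z (mo n D)) = 0 :=
      Ideal.Quotient.eq_zero_iff_mem.mpr (Ideal.mem_span_singleton_self _)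
    have h2 : (ι.comp π) (y0 * z (mo n D)) = 0 := by
      change ι (π _) = 0
      rw [h1, map_zero]
    rw [map_mul] at h2
    have h3 := congrArg (fun x => (↑u⁻¹ : Localization.Away c) * x) h2
    simp only [mul_zero] at h3
    rw [← mul_assoc, huy, one_mul] at h3
    exact h3
  have hzm : ∀ m, (ι.comp π) (z m) = 0 := by
    intro m
    rw [csol_unit hsol _ huy (aeval fun i => -((↑u⁻¹ : Localization.Away c) *
      (ι.comp π) (y i))) (fun i => aeval_X _ i) m, hz0, mul_zero]
  -- the compositions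
  have e1 : g.comp f = AlgHom.id k _ := by
    apply loc_uniq
    intro q
    obtain ⟨q, rfl⟩ := hπ q
    have e2 : ((g.comp f).comp ι).comp π = ι.comp π := by
      refine h.uniq _ _ _ ?_ (fun i => ?_) (fun m => ?_)
      · change g (f (ι (π y0))) = ι (π y0)
        rw [hf, hf1, hf00, hgT]
        exact hu
      · change g (f (ι (π (y i)))) = ι (π (y i))
        rw [hf, hf1, hf0y]
        change g (LaurentPolynomial.C (X i)) = _
        rw [hgC, hg0]
      · change g (f (ι (π (z m)))) = (ι.comp π) (z m)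
        rw [hf, hf1, hf0z, map_zero, hzm]
    exact congrArg (fun v : Q →ₐ[k] Localization.Away c => v q) e2
  have e4 : f.comp g = AlgHom.id k _ := by
    apply lau_uniq
    · intro b
      have e5 : (f.comp g).comp κ = κ := by
        apply MvPolynomial.algHom_ext
        intro i
        change f (g (LaurentPolynomial.C (X i))) = κ (X i)
        rw [hgC, hg0, hf, hf1, hf0y]
      exact congrArg (fun v : MvPolynomial (Fin n) k →ₐ[k]
        LaurentPolynomial (MvPolynomial (Fin n) k) => v b) e5
    · change f (g (LaurentPolynomial.T 1)) = t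
      rw [hgT, hu, hf]
      exact (hf1 y0).trans hf00
  exact ⟨AlgEquiv.ofAlgHom f g e4 e1⟩

/-- the monomials of degree `D` -/
abbrev Tm (n D : ℕ) : Type := {m : Mon n D // m.1.degree = D}

/-- the monomials of degree less than `D` -/
abbrev Lm (n D : ℕ) : Type := {m : Mon n D // m.1.degree < D}

/-- the equations `y_i z_m = 0` -/
noncomputable def lowE (k : Type) [CommRing k] (n D : ℕ) (a : Fin n × Lm n D) :
    MvPolynomial (Fin n ⊕ Lm n D) k :=
  X (Sum.inl a.1) * X (Sum.inr a.2)

open Classical in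
/-- **The part `y_0 = 0` of the cone.** -/
theorem cone_bd_closed (h : CRep G y0 y z) :
    ∃ (B : Type) (_ : CommRing B) (_ : Algebra k B) (_ : Algebra.FiniteType k B),
      Nonempty ((Q ⧸ Ideal.span {y0}) ≃ₐ[k] MvPolynomial (Tm n D) B) := by
  let I : Ideal (MvPolynomial (Fin n ⊕ Lm n D) k) := Ideal.span (Set.range (lowE k n D))
  let B : Type := MvPolynomial (Fin n ⊕ Lm n D) k ⧸ I
  let P : Type := MvPolynomial (Tm n D) B
  let Q' : Type := Q ⧸ Ideal.span {y0}
  let π : Q →ₐ[k] Q' := Ideal.Quotient.mkₐ k (Ideal.span {y0})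
  have hπ : Function.Surjective π := Ideal.Quotient.mkₐ_surjective k _
  have hπ0 : π y0 = 0 := Ideal.Quotient.eq_zero_iff_mem.mpr (Ideal.mem_span_singleton_self _)
  let β : MvPolynomial (Fin n ⊕ Lm n D) k →ₐ[k] B := Ideal.Quotient.mkₐ k I
  have hβ : Function.Surjective β := Ideal.Quotient.mkₐ_surjective k _
  let κ : B →ₐ[k] P := IsScalarTower.toAlgHom k B P
  have hκ : ∀ b, κ b = C b := fun _ => rfl
  have hlow : ∀ (i : Fin n) (m : Lm n D), β (X (Sum.inl i)) * β (X (Sum.inr m)) = 0 := by
    intro i m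
    rw [← map_mul]
    exact Ideal.Quotient.eq_zero_iff_mem.mpr (Ideal.subset_span ⟨(i, m), rfl⟩)
  have hdeg : ∀ (m : Mon n D) (i : Fin n), (m.1 + Finsupp.single i 1).degree ≤ D →
      m.1.degree < D := by
    intro m i hm
    rw [map_add, Finsupp.degree_single] at hm
    omega
  -- the first homomorphism
  let zz : Mon n D → P := fun m => if h' : m.1.degree < D then κ (β (X (Sum.inr ⟨m, h'⟩))) else
    X ⟨m, le_antisymm m.2 (not_lt.mp h')⟩
  have hzl : ∀ m : Lm n D, zz m.1 = κ (β (X (Sum.inr m))) := fun m => dif_pos m.2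
  have hzt : ∀ m : Tm n D, zz m.1 = X m := fun m => dif_neg (by rw [m.2]; exact lt_irrefl _)
  have hS : CSol G (0 : P) (fun i => κ (β (X (Sum.inl i)))) zz := by
    refine ⟨fun m i hm => ?_, fun g hg => zero_mul _⟩
    have h1 : zz m = κ (β (X (Sum.inr ⟨m, hdeg m i hm⟩))) := hzl ⟨m, hdeg m i hm⟩
    rw [h1, ← map_mul, hlow, map_zero, zero_mul, add_zero]
  obtain ⟨f0, hf00, hf0y, hf0z⟩ := h.ex _ _ _ _ hS
  have hf0' : ∀ a ∈ Ideal.span {y0}, f0 a = 0 := by
    intro a ha
    obtain ⟨b, rfl⟩ := Ideal.mem_span_singleton'.mp ha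
    rw [map_mul, hf00, mul_zero]
  let f : Q' →ₐ[k] P := Ideal.Quotient.liftₐ (Ideal.span {y0}) f0 hf0'
  have hf : ∀ q, f (π q) = f0 q := fun q => rfl
  -- the second homomorphism
  let g0 : MvPolynomial (Fin n ⊕ Lm n D) k →ₐ[k] Q' :=
    aeval (Sum.elim (fun i => π (y i)) (fun m => π (z m.1)))
  have hg0y : ∀ i, g0 (X (Sum.inl i)) = π (y i) := fun i => by
    change aeval _ _ = _
    rw [aeval_X, Sum.elim_inl]
  have hg0z : ∀ m, g0 (X (Sum.inr m)) = π (z m.1) := fun i => by
    change aeval _ _ = _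
    rw [aeval_X, Sum.elim_inr]
  have hg0' : ∀ a ∈ I, g0 a = 0 := by
    have h1 : I ≤ RingHom.ker g0 := by
      rw [Ideal.span_le]
      rintro _ ⟨⟨i, m⟩, rfl⟩
      change g0 (X (Sum.inl i) * X (Sum.inr m)) = 0
      rw [map_mul, hg0y, hg0z]
      have hm : (m.1.1 + Finsupp.single i 1).degree ≤ D := by
        rw [map_add, Finsupp.degree_single]
        have := m.2
        omega
      have h2 := congrArg π (h.sol.mul m.1 i hm)
      rw [map_add, map_mul, map_mul, hπ0, zero_mul, add_zero, map_zero] at h2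
      exact h2
    exact fun a ha => h1 ha
  let g1 : B →ₐ[k] Q' := Ideal.Quotient.liftₐ I g0 hg0'
  have hg1 : ∀ a, g1 (β a) = g0 a := fun a => rfl
  let g : P →+* Q' := eval₂Hom g1.toRingHom fun m => π (z m.1)
  have hgC : ∀ b, g (κ b) = g1 b := fun b => eval₂Hom_C _ _ _
  have hgX : ∀ m, g (X m) = π (z m.1) := fun m => eval₂Hom_X' _ _ _
  -- the compositions
  have hgk : ∀ c : k, g (algebraMap k P c) = algebraMap k Q' c := by
    intro c
    have h1 : algebraMap k P c = κ (algebraMap k B c) := (κ.commutes c).symm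
    rw [h1, hgC, g1.commutes]
  let g' : P →ₐ[k] Q' := { g with commutes' := hgk }
  have e1 : Function.LeftInverse g' f := by
    intro q
    obtain ⟨q, rfl⟩ := hπ q
    have e2 : (g'.comp f).comp π = π := by
      refine h.uniq _ _ _ ?_ (fun i => ?_) (fun m => ?_)
      · change g (f (π y0)) = π y0
        rw [hf, hf00, map_zero, hπ0]
      · change g (f (π (y i))) = π (y i)
        rw [hf, hf0y, hgC, hg1, hg0y]
      · change g (f (π (z m))) = π (z m)
        rw [hf, hf0z]
        by_cases hm : m.1.degree < D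
        · rw [hzl ⟨m, hm⟩, hgC, hg1, hg0z]
        · rw [hzt ⟨m, le_antisymm m.2 (not_lt.mp hm)⟩, hgX]
    exact congrArg (fun v : Q →ₐ[k] Q' => v q) e2
  have e3 : Function.RightInverse g' f := by
    intro p
    have e4 : f.toRingHom.comp g = RingHom.id P := by
      apply MvPolynomial.ringHom_ext
      · intro b
        obtain ⟨b, rfl⟩ := hβ b
        have e5 : ((f.comp g1).comp β) = κ.comp β := by
          apply MvPolynomial.algHom_ext
          rintro (i | m)
          · change f (g1 (β (X (Sum.inl i)))) = κ (β (X (Sum.inl i)))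
            rw [hg1, hg0y, hf, hf0y]
          · change f (g1 (β (X (Sum.inr m)))) = κ (β (X (Sum.inr m)))
            rw [hg1, hg0z, hf, hf0z, hzl]
        change f (g (κ (β b))) = κ (β b)
        rw [hgC]
        exact congrArg (fun v : MvPolynomial (Fin n ⊕ Lm n D) k →ₐ[k] P => v b) e5
      · intro m
        change f (g (X m)) = X m
        rw [hgX, hf, hf0z, hzt]
    exact congrArg (fun v : P →+* P => v p) e4
  refine ⟨B, inferInstance, inferInstance, inferInstance, ⟨AlgEquiv.ofBijective f ⟨?_, ?_⟩⟩⟩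
  · exact e1.injective
  · exact e3.surjective

end

/-- There are many monomials of degree `D` in at least two variables. -/
lemma card_tm (hn : 2 ≤ n) : D + 1 ≤ Fintype.card (Tm n D) := by
  let i0 : Fin n := ⟨0, by omega⟩
  let i1 : Fin n := ⟨1, by omega⟩
  have hne : i0 ≠ i1 := by
    intro h
    have := congrArg Fin.val h
    simp [i0, i1] at this
  let F : Fin (D + 1) → Tm n D := fun a =>
    ⟨⟨Finsupp.single i0 a.1 + Finsupp.single i1 (D - a.1), by
      rw [map_add, Finsupp.degree_single, Finsupp.degree_single]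
      have := a.2
      omega⟩, by
      change (Finsupp.single i0 a.1 + Finsupp.single i1 (D - a.1)).degree = D
      rw [map_add, Finsupp.degree_single, Finsupp.degree_single]
      have := a.2
      omega⟩
  have hF : Function.Injective F := by
    intro a b hab
    have h1 : Finsupp.single i0 a.1 + Finsupp.single i1 (D - a.1) =
        Finsupp.single i0 b.1 + Finsupp.single i1 (D - b.1) :=
      congrArg (fun x : Tm n D => x.1.1) hab
    have h2 := DFunLike.congr_fun h1 i0
    simp only [Finsupp.add_apply, Finsupp.single_eq_same, Finsupp.single_apply] at h2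
    rw [if_neg hne.symm, if_neg hne.symm] at h2
    exact Fin.ext (by omega)
  simpa using Fintype.card_le_of_injective F hF

end Pool.Agent.U554.TZ
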