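import Pool.Agent.U554.TZ.HomTwo
import Pool.Agent.U554.TZ.ConeThree
import Pool.Agent.U554.TD.Dim
import Pool.Agent.U554.TU.Uni
import Pool.Agent.U738.BN.Bnd

/-!
# Closed subschemes of the affine space of dimension `n` and bilinear systems with `n + 1` variables in one block

`P` is a property of schemes of finite type over a commutative ring `R` with the two-out-of-three properties for
closed subschemes and their complements, and which holds for an affine scheme `X` if and only if it holds for
`X × 𝔾_m`.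
-/

set_option autoImplicit false

open CategoryTheory AlgebraicGeometry MvPolynomial Pool.Agent.Y116.UV
open Pool.Agent.U554.TU Pool.Agent.U554.TW
open Pool.Agent.U554.TD (One one_alg ring_total ring_open one_surj p_emb)

namespace Pool.Agent.U554.TZ

variable {R : Type} [CommRing R] {sep : Prop} {P : Sch R → Prop}

/-- The property `P` passes to extensions of an open subscheme by a closed subscheme, to the complement if it holds
for `X` and for the closed subscheme, it holds for the empty scheme, and it holds for an affine `X` if and only if it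
holds for `X × 𝔾_m`. -/
structure Fam (sep : Prop) (P : Sch R → Prop) : Prop extends One sep P where
  times : ∀ (A : Type) [CommRing A] [Algebra R A] [Algebra.FiniteType R A],
    P (aff R A) → P (aff R (LaurentPolynomial A))
  torus : ∀ (A : Type) [CommRing A] [Algebra R A] [Algebra.FiniteType R A],
    P (aff R (LaurentPolynomial A)) → P (aff R A)

lemma Fam.line (hP : Fam sep P) (A : Type) [CommRing A] [Algebra R A] [Algebra.FiniteType R A]
    (h : P (aff R A)) : P (aff R (Polynomial A)) := by
  have hf : Algebra.FiniteType R (Polynomial A) :=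
    Algebra.FiniteType.trans (S := A) inferInstance inferInstance
  have hL : Algebra.FiniteType R (LaurentPolynomial A) := ft_laurent A
  refine ring_total hP.toOne (Polynomial.X : Polynomial A) ?_ ?_
  · exact one_alg hP.toOne (Pool.Agent.U738.BN.polyQuot R A).symm h
  · exact one_alg hP.toOne (Pool.Agent.U738.BN.lauAway R A).symm (hP.times A h)

lemma Fam.poly (hP : Fam sep P) (A : Type) [CommRing A] [Algebra R A] [Algebra.FiniteType R A] (r : ℕ)
    (h : P (aff R A)) : P (aff R (MvPolynomial (Fin r) A)) := by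
  induction r with
  | zero =>
    let e : MvPolynomial (Fin 0) A ≃ₐ[R] A := (isEmptyAlgEquiv A (Fin 0)).restrictScalars R
    exact one_alg hP.toOne e.symm h
  | succ r ih =>
    have hf : Algebra.FiniteType R (MvPolynomial (Fin r) A) :=
      Algebra.FiniteType.trans (S := A) inferInstance inferInstance
    have hf' : Algebra.FiniteType R (Polynomial (MvPolynomial (Fin r) A)) :=
      Algebra.FiniteType.trans (S := MvPolynomial (Fin r) A) inferInstance inferInstance
    let e : MvPolynomial (Fin (r + 1)) A ≃ₐ[R] Polynomial (MvPolynomial (Fin r) A) :=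
      (finSuccEquiv A r).restrictScalars R
    exact one_alg hP.toOne e.symm (hP.line _ ih)

/-- The property for affine schemes. -/
def AffR (P : Sch R → Prop) (A : Type) [CommRing A] [Algebra R A] : Prop := P (aff R A)

lemma Fam.isClass (hP : Fam sep P) : IsClass (k := R) (AffR P) where
  iso _ _ _ _ _ _ _ e h := one_alg hP.toOne e h
  ext _ _ _ _ c h h' := ring_total hP.toOne c h h'
  poly A _ _ _ r h := hP.poly A r h

/-- All closed subschemes of the affine space of dimension `n` have the property. -/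
def ClosedIn (P : Sch R → Prop) (n : ℕ) : Prop :=
  ∀ I : Ideal (MvPolynomial (Fin n) R), P (aff R (MvPolynomial (Fin n) R ⧸ I))

lemma Fam.her (hP : Fam sep P) {n : ℕ} (hA : ClosedIn P n) (p : ℕ) (hp : p ≤ n) :
    Her (k := R) (AffR P) (MvPolynomial (Fin p) R) := by
  rintro A' _ _ φ ⟨g, hg, h1⟩
  let ρ : MvPolynomial (Fin n) R →ₐ[R] MvPolynomial (Fin p) R :=
    aeval fun i => if h : i.1 < p then X ⟨i.1, h⟩ else 0
  have hρ : Function.Surjective ρ := by
    intro x
    refine ⟨rename (Fin.castLE hp) x, ?_⟩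
    have h2 : (ρ.comp (rename (Fin.castLE hp))) = AlgHom.id R _ := by
      apply MvPolynomial.algHom_ext
      intro i
      change ρ (rename (Fin.castLE hp) (X i)) = X i
      rw [rename_X]
      change aeval _ _ = _
      rw [aeval_X]
      exact dif_pos i.2
    exact congrArg (fun u : MvPolynomial (Fin p) R →ₐ[R] MvPolynomial (Fin p) R => u x) h2
  obtain ⟨g', rfl⟩ := hρ g
  refine p_emb hP.toOne hA (φ.comp ρ) g' hg fun a => ?_
  obtain ⟨m, q, hq⟩ := h1 a
  obtain ⟨q', rfl⟩ := hρ q
  exact ⟨m, q', hq⟩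

/-- **From the closed subschemes of the affine space of dimension `n` to the bilinear systems with at most `n + 1`
variables in the block `y`.** -/
theorem Fam.bil_of_closed (hP : Fam sep P) {n : ℕ} (hA : ClosedIn P n) {a₁ a₂ a₃ : ℕ} (ha : a₂ ≤ n + 1)
    (T : Fin a₁ → Fin a₂ → Fin a₃ → R) : P (bilS T) :=
  bil_good (G := AffR P) hP.isClass (fun A _ _ _ h => hP.times A h) n (fun p hp => hP.her hA p hp)
    a₂ ha a₁ (Fin a₃) _ T _ _ (bil_std T)

/-- Bilinear systems with variables indexed by an arbitrary finite type. -/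
lemma Fam.bil_any (hP : Fam sep P) {n : ℕ}
    (h : ∀ (a₁ a₂ a₃ : ℕ) (T : Fin a₁ → Fin a₂ → Fin a₃ → R), a₂ ≤ n + 1 → P (bilS T)) {p a : ℕ}
    (hp : p ≤ n + 1) {σ : Type} [Fintype σ] (S : Fin a → Fin p → σ → R) {W : Type} [CommRing W]
    [Algebra R W] {y' : Fin p → W} {z' : σ → W} (hW : Bil S y' z') : P (aff R W) := by
  let eM : Fin (Fintype.card σ) ≃ σ := (Fintype.equivFin σ).symm
  have h1 := h a p _ (fun i j l => S i j (eM l)) hp
  have h2 : Bil (Q := MvPolynomial (Fin p ⊕ Fin (Fintype.card σ)) R ⧸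
      Ideal.span (Set.range fun i => bil (Fin p) (Fin (Fintype.card σ)) fun j l => S i j (eM l)))
      (fun i j l => S i j (eM l)) _ _ := bil_std _
  have h3 : Bil (fun i j l => S i j (eM l)) y' (fun l => z' (eM l)) := by
    refine ⟨?_, ?_, ?_⟩
    · intro i
      refine Eq.trans (Finset.sum_congr rfl fun j _ => ?_) (hW.sol i)
      exact eM.sum_comp fun m => algebraMap R W (S i j m) * y' j * z' m
    · intro B _ _ y'' z'' hs'
      obtain ⟨f, hf1, hf2⟩ := hW.ex B y'' (fun m => z'' (eM.symm m)) (by
        intro i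
        refine Eq.trans (Finset.sum_congr rfl fun j _ => ?_) (hs' i)
        rw [← eM.sum_comp]
        simp only [Equiv.symm_apply_apply])
      exact ⟨f, hf1, fun l => by rw [hf2, Equiv.symm_apply_apply]⟩
    · intro B _ _ f g h1 h2
      refine hW.uniq B f g h1 fun m => ?_
      have h3 := h2 (eM.symm m)
      simp only [Equiv.apply_symm_apply] at h3
      exact h3
  obtain ⟨e'⟩ := bil_equiv h2 h3
  exact one_alg hP.toOne e' h1

lemma Fam.base (hP : Fam sep P) {n : ℕ}
    (h : ∀ (a₁ a₂ a₃ : ℕ) (T : Fin a₁ → Fin a₂ → Fin a₃ → R), a₂ ≤ n + 1 → P (bilS T)) :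
    P (aff R R) := by
  have hW : Bil (Q := R) (fun i : Fin 0 => (i.elim0 : Fin 0 → Fin 0 → R)) (fun i : Fin 0 => (i.elim0 : R))
      (fun i : Fin 0 => (i.elim0 : R)) :=
    ⟨fun e => e.elim0, fun B _ _ _ _ _ => ⟨Algebra.ofId R B, fun i => i.elim0, fun i => i.elim0⟩,
      fun B _ _ f g _ _ => Subsingleton.elim _ _⟩
  exact hP.bil_any h (by omega) _ hW

/-- The cone. -/
lemma Fam.cone (hP : Fam sep P) (hR0 : P (aff R R)) {n D : ℕ} {G : Finset (MvPolynomial (Fin n) R)}
    {Q : Type} [CommRing Q] [Algebra R Q] [Algebra.FiniteType R Q] {y0 : Q} {y : Fin n → Q}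
    {z : Mon n D → Q} (hR : CRep G y0 y z) {A : Type} [CommRing A] [Algebra R A] [Algebra.FiniteType R A]
    (φ : MvPolynomial (Fin n) R →ₐ[R] A) (hs : Function.Surjective φ)
    (hK : RingHom.ker φ = Ideal.span (G : Set (MvPolynomial (Fin n) R)))
    (hd : ∀ g ∈ G, ∀ m ∈ g.support, m.degree ≤ D)
    (hQ : P (aff R Q)) (hQ0 : P (aff R (Q ⧸ Ideal.span {y0}))) : P (aff R A) := by
  obtain ⟨e0⟩ := cone_bd_open hR
  have h1 : y0 * z (mo n D) ∈ Ideal.span {y0} :=
    Ideal.mul_mem_right _ _ (Ideal.mem_span_singleton_self _)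
  obtain ⟨e1⟩ := quot_quot (R := R) (y0 * z (mo n D)) y0 h1
  have hL : Algebra.FiniteType R (LaurentPolynomial (MvPolynomial (Fin n) R)) := ft_laurent _
  have hbd : P (aff R (Q ⧸ Ideal.span {y0 * z (mo n D)})) := by
    refine ring_total hP.toOne (Ideal.Quotient.mk (Ideal.span {y0 * z (mo n D)}) y0) ?_ ?_
    · exact one_alg hP.toOne e1.symm hQ0
    · exact one_alg hP.toOne e0.symm (hP.times _ (hP.poly R n hR0))
  obtain ⟨e3⟩ := cone_open hR φ hs hK hd
  have hLA := ft_laurent (R := R) A
  have hLL := ft_laurent (R := R) (LaurentPolynomial A)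
  have hft : Algebra.FiniteType R (Localization.Away (y0 * z (mo n D))) :=
    Algebra.FiniteType.trans (S := Q) inferInstance inferInstance
  exact hP.torus A (hP.torus _ (one_alg hP.toOne e3 (ring_open hP.toOne _ hbd hQ)))

/-- **From the bilinear systems with at most `n + 1` variables in the block `y` to the closed subschemes of the
affine space of dimension `n`.** -/
theorem Fam.closed_of_bil [IsNoetherianRing R] (hP : Fam sep P) {n : ℕ}
    (h : ∀ (a₁ a₂ a₃ : ℕ) (T : Fin a₁ → Fin a₂ → Fin a₃ → R), a₂ ≤ n + 1 → P (bilS T)) : ClosedIn P n := by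
  classical
  intro I
  obtain ⟨G, hG⟩ := (isNoetherianRing_iff_ideal_fg _).mp
    (inferInstance : IsNoetherianRing (MvPolynomial (Fin n) R)) I
  let D : ℕ := ∑ g ∈ G, ∑ m ∈ g.support, m.degree
  have hd : ∀ g ∈ G, ∀ m ∈ g.support, m.degree ≤ D := by
    intro g hg m hm
    have h1 : m.degree ≤ ∑ m ∈ g.support, m.degree :=
      Finset.single_le_sum (f := fun m : Fin n →₀ ℕ => m.degree) (fun _ _ => Nat.zero_le _) hm
    have h2 : ∑ m ∈ g.support, m.degree ≤ ∑ g ∈ G, ∑ m ∈ g.support, m.degree :=
      Finset.single_le_sum (f := fun g : MvPolynomial (Fin n) R => ∑ m ∈ g.support, m.degree)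
        (fun _ _ => Nat.zero_le _) hg
    exact h1.trans h2
  let e : Fin (Fintype.card ((Mon n D × Fin n) ⊕ G)) ≃ (Mon n D × Fin n) ⊕ G := (Fintype.equivFin _).symm
  have hB := bil_std (k := R) fun i => ct D G (e i)
  have hR := crep_of_bil e e.surjective hB
  have hQ := hP.bil_any h le_rfl _ hB
  have hQ0 := hP.bil_any h (Nat.le_succ n) _ (bil_quot hB)
  exact hP.cone (hP.base h) hR (Ideal.Quotient.mkₐ R I) (Ideal.Quotient.mkₐ_surjective R I)
    ((Ideal.mk_ker (I := I)).trans hG.symm) hd hQ hQ0

end Pool.Agent.U554.TZ
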