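import Pool.Agent.U554.TZ.HomTwo
import Pool.Agent.U554.TW.Bil

/-!
# The cone over an affine scheme, with a small block of variables

Let `A = k[x_1, …, x_n] / (G)`. The equations `y_i z_m + y_0 z_{m + e_i} = 0` (for monomials of degree at
most `D`) and `y_0 ∑ g_m z_m = 0` (`g ∈ G`) are bilinear in the `n + 1` variables `y` and in the variables
`z`. The part `y_0 z_0 ≠ 0` of the scheme of their solutions is `Spec A × 𝔾_m²`.
-/

set_option autoImplicit false

open MvPolynomial Pool.Agent.Y116.UV Pool.Agent.U554.TU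

namespace Pool.Agent.U554.TZ

variable {k : Type} [CommRing k] {n D : ℕ}

/-- The equations of the cone. -/
structure CSol (G : Finset (MvPolynomial (Fin n) k)) {B : Type} [CommRing B] [Algebra k B] (y0 : B)
    (y : Fin n → B) (z : Mon n D → B) : Prop where
  mul : ∀ (m : Mon n D) (i : Fin n) (h : (m.1 + Finsupp.single i 1).degree ≤ D),
    y i * z m + y0 * z ⟨_, h⟩ = 0
  eqn : ∀ g ∈ G, y0 * ∑ m : Mon n D, algebraMap k B (coeff m.1 g) * z m = 0

/-- `Q` represents the solutions of the equations of the cone. -/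
structure CRep (G : Finset (MvPolynomial (Fin n) k)) {Q : Type} [CommRing Q] [Algebra k Q] (y0 : Q)
    (y : Fin n → Q) (z : Mon n D → Q) : Prop where
  sol : CSol G y0 y z
  ex : ∀ (B : Type) [CommRing B] [Algebra k B] (y0' : B) (y' : Fin n → B) (z' : Mon n D → B),
    CSol G y0' y' z' → ∃ f : Q →ₐ[k] B, f y0 = y0' ∧ (∀ i, f (y i) = y' i) ∧ ∀ m, f (z m) = z' m
  uniq : ∀ (B : Type) [CommRing B] [Algebra k B] (f g : Q →ₐ[k] B), f y0 = g y0 →
    (∀ i, f (y i) = g (y i)) → (∀ m, f (z m) = g (z m)) → f = g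

open Classical in
/-- The coefficients of the equations of the cone. -/
noncomputable def ct (D : ℕ) (G : Finset (MvPolynomial (Fin n) k)) :
    (Mon n D × Fin n) ⊕ G → Fin (n + 1) → Mon n D → k
  | Sum.inl (m, i) => if h : (m.1 + Finsupp.single i 1).degree ≤ D then
      Fin.snoc (α := fun _ => Mon n D → k) (fun i' m' => if i' = i ∧ m' = m then 1 else 0)
        (fun m' => if m' = ⟨_, h⟩ then 1 else 0) else fun _ _ => 0
  | Sum.inr g => Fin.snoc (α := fun _ => Mon n D → k) (fun _ _ => 0) (fun m' => coeff m'.1 g.1)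

lemma ct_mem {S : Set k} (h0 : 0 ∈ S) (h1 : 1 ∈ S) (G : Finset (MvPolynomial (Fin n) k))
    (hG : ∀ g ∈ G, ∀ m, coeff m g ∈ S) (e : (Mon n D × Fin n) ⊕ G) (j : Fin (n + 1))
    (m' : Mon n D) : ct D G e j m' ∈ S := by
  classical
  rcases e with ⟨m, i⟩ | g
  · unfold ct
    dsimp only
    split_ifs with h
    · induction j using Fin.lastCases with
      | last =>
        rw [Fin.snoc_last]
        split_ifs
        · exact h1
        · exact h0
      | cast j =>
        rw [Fin.snoc_castSucc]
        split_ifs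
        · exact h1
        · exact h0
    · exact h0
  · unfold ct
    dsimp only
    induction j using Fin.lastCases with
    | last =>
      rw [Fin.snoc_last]
      exact hG _ g.2 _
    | cast j =>
      rw [Fin.snoc_castSucc]
      exact h0

section

variable {B : Type} [CommRing B] [Algebra k B] (G : Finset (MvPolynomial (Fin n) k))
  (Y : Fin (n + 1) → B) (z : Mon n D → B)

lemma ct_inl (m : Mon n D) (i : Fin n) (h : (m.1 + Finsupp.single i 1).degree ≤ D) :
    ∑ j, ∑ m', algebraMap k B (ct D G (Sum.inl (m, i)) j m') * Y j * z m' =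
      Y (Fin.castSucc i) * z m + Y (Fin.last n) * z ⟨_, h⟩ := by
  classical
  unfold ct
  simp only [dif_pos h]
  rw [Fin.sum_univ_castSucc, Finset.sum_eq_single i, Finset.sum_eq_single m,
    Finset.sum_eq_single (⟨_, h⟩ : Mon n D)]
  · rw [Fin.snoc_castSucc, Fin.snoc_last, if_pos ⟨rfl, rfl⟩, if_pos rfl, map_one, one_mul, one_mul]
  · intro m' _ hm'
    rw [Fin.snoc_last, if_neg hm', map_zero, zero_mul, zero_mul]
  · intro h'
    exact absurd (Finset.mem_univ _) h'
  · intro m' _ hm'
    rw [Fin.snoc_castSucc, if_neg (fun h' => hm' h'.2), map_zero, zero_mul, zero_mul]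
  · intro h'
    exact absurd (Finset.mem_univ _) h'
  · intro i' _ hi'
    refine Finset.sum_eq_zero fun m' _ => ?_
    rw [Fin.snoc_castSucc, if_neg (fun h' => hi' h'.1), map_zero, zero_mul, zero_mul]
  · intro h'
    exact absurd (Finset.mem_univ _) h'

lemma ct_inl' (m : Mon n D) (i : Fin n) (h : ¬ (m.1 + Finsupp.single i 1).degree ≤ D) :
    ∑ j, ∑ m', algebraMap k B (ct D G (Sum.inl (m, i)) j m') * Y j * z m' = 0 := by
  classical
  refine Finset.sum_eq_zero fun j _ => Finset.sum_eq_zero fun m' _ => ?_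
  unfold ct
  dsimp only
  rw [dif_neg h, map_zero, zero_mul, zero_mul]

lemma ct_inr (g : G) :
    ∑ j, ∑ m', algebraMap k B (ct D G (Sum.inr g) j m') * Y j * z m' =
      Y (Fin.last n) * ∑ m : Mon n D, algebraMap k B (coeff m.1 g.1) * z m := by
  classical
  unfold ct
  dsimp only
  rw [Fin.sum_univ_castSucc, Finset.sum_eq_zero, zero_add, Finset.mul_sum]
  · refine Finset.sum_congr rfl fun m' _ => ?_
    rw [Fin.snoc_last]
    ring
  · intro i' _
    refine Finset.sum_eq_zero fun m' _ => ?_
    rw [Fin.snoc_castSucc, map_zero, zero_mul, zero_mul]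

lemma csol_iff {ι : Type} (e : ι → (Mon n D × Fin n) ⊕ G) (he : Function.Surjective e) :
    BSol (fun i => ct D G (e i)) Y z ↔
      CSol G (Y (Fin.last n)) (fun i => Y (Fin.castSucc i)) z := by
  constructor
  · intro h
    refine ⟨fun m i hm => ?_, fun g hg => ?_⟩
    · obtain ⟨j, hj⟩ := he (Sum.inl (m, i))
      have h1 := h j
      simp only [hj] at h1
      rwa [ct_inl G Y z m i hm] at h1
    · obtain ⟨j, hj⟩ := he (Sum.inr ⟨g, hg⟩)
      have h1 := h j
      simp only [hj] at h1
      rwa [ct_inr G Y z ⟨g, hg⟩] at h1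
  · intro h j
    rcases hj : e j with ⟨m, i⟩ | g
    · simp only [hj]
      by_cases hm : (m.1 + Finsupp.single i 1).degree ≤ D
      · rw [ct_inl G Y z m i hm]
        exact h.mul m i hm
      · exact ct_inl' G Y z m i hm
    · simp only [hj]
      rw [ct_inr G Y z g]
      exact h.eqn g.1 g.2

end

lemma crep_of_bil {G : Finset (MvPolynomial (Fin n) k)} {Q ι : Type} [CommRing Q] [Algebra k Q]
    {Y : Fin (n + 1) → Q} {z : Mon n D → Q} (e : ι → (Mon n D × Fin n) ⊕ G)
    (he : Function.Surjective e) (h : Bil (fun i => ct D G (e i)) Y z) :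
    CRep G (Y (Fin.last n)) (fun i => Y (Fin.castSucc i)) z := by
  refine ⟨(csol_iff G Y z e he).mp h.sol, ?_, ?_⟩
  · intro B _ _ y0' y' z' h'
    have hl : (Fin.snoc (α := fun _ => B) y' y0' : Fin (n + 1) → B) (Fin.last n) = y0' :=
      Fin.snoc_last (α := fun _ => B) _ _
    have hc : ∀ i : Fin n, (Fin.snoc (α := fun _ => B) y' y0' : Fin (n + 1) → B)
        (Fin.castSucc i) = y' i := fun i => Fin.snoc_castSucc (α := fun _ => B) _ _ i
    obtain ⟨f, hf1, hf2⟩ := h.ex B (Fin.snoc (α := fun _ => B) y' y0') z'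
      ((csol_iff G _ z' e he).mpr (by rw [hl]; simp only [hc]; exact h'))
    exact ⟨f, (hf1 _).trans hl, fun i => (hf1 _).trans (hc i), hf2⟩
  · intro B _ _ f g h1 h2 h3
    refine h.uniq B f g (fun i => ?_) h3
    induction i using Fin.lastCases with
    | last => exact h1
    | cast i => exact h2 i

end Pool.Agent.U554.TZ
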