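import Pool.Agent.U554.TZ.Elim

/-!
# Systems of bilinear equations
-/

set_option autoImplicit false

open MvPolynomial Pool.Agent.Y116.UV Pool.Agent.U554.TU

namespace Pool.Agent.U554.TZ

variable {k : Type} [CommRing k]

section

variable {Q B : Type} [CommRing Q] [Algebra k Q] [CommRing B] [Algebra k B]

lemma loc_ex (c : Q) (f : Q →ₐ[k] B) (h : IsUnit (f c)) :
    ∃ g : Localization.Away c →ₐ[k] B, ∀ a, g (algebraMap Q _ a) = f a := by
  have hu : ∀ y : Submonoid.powers c, IsUnit (f y) := by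
    rintro ⟨_, n, rfl⟩
    change IsUnit (f (c ^ n))
    rw [map_pow]
    exact h.pow n
  refine ⟨IsLocalization.liftAlgHom (M := Submonoid.powers c) (f := f) hu, fun a => ?_⟩
  rw [IsLocalization.liftAlgHom_apply, IsLocalization.lift_eq]
  rfl

lemma loc_uniq {c : Q} (f g : Localization.Away c →ₐ[k] B)
    (h : ∀ a, f (algebraMap Q _ a) = g (algebraMap Q _ a)) : f = g := by
  have h4 : f.toRingHom = g.toRingHom := by
    apply IsLocalization.ringHom_ext (Submonoid.powers c)
    apply RingHom.ext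
    exact h
  apply AlgHom.ext
  intro x
  exact congrArg (fun u : Localization.Away c →+* B => u x) h4

lemma loc_unit (c : Q) : IsUnit (algebraMap Q (Localization.Away c) c) :=
  IsLocalization.map_units (M := Submonoid.powers c) (Localization.Away c)
    ⟨c, Submonoid.mem_powers c⟩

lemma lau_ex (f : Q →ₐ[k] B) (u : Bˣ) :
    ∃ g : LaurentPolynomial Q →ₐ[k] B, (∀ a, g (LaurentPolynomial.C a) = f a) ∧
      g (LaurentPolynomial.T 1) = u := by
  let g : LaurentPolynomial Q →+* B := LaurentPolynomial.eval₂ f.toRingHom u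
  have hg : ∀ a, g (LaurentPolynomial.C a) = f a := fun a => LaurentPolynomial.eval₂_C _ _ a
  have hT : g (LaurentPolynomial.T 1) = u := by
    change LaurentPolynomial.eval₂ f.toRingHom u (LaurentPolynomial.T 1) = u
    rw [LaurentPolynomial.eval₂_T, zpow_one]
  have hk : ∀ c : k, g (algebraMap k _ c) = algebraMap k B c := by
    intro c
    have h1 : algebraMap k (LaurentPolynomial Q) c = LaurentPolynomial.C (algebraMap k Q c) := rfl
    rw [h1, hg, f.commutes]
  exact ⟨{ g with commutes' := hk }, hg, hT⟩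

lemma lau_uniq (f g : LaurentPolynomial Q →ₐ[k] B)
    (h : ∀ a, f (LaurentPolynomial.C a) = g (LaurentPolynomial.C a))
    (hT : f (LaurentPolynomial.T 1) = g (LaurentPolynomial.T 1)) : f = g := by
  have h4 : f.toRingHom = g.toRingHom := laurent_hom_ext _ _ h hT
  apply AlgHom.ext
  intro x
  exact congrArg (fun u : LaurentPolynomial Q →+* B => u x) h4

end

/-- `y`, `z` is a solution of the bilinear equations `T e`. -/
def BSol {B ι β σ : Type} [CommRing B] [Algebra k B] [Fintype β] [Fintype σ]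
    (T : ι → β → σ → k) (y : β → B) (z : σ → B) : Prop :=
  ∀ e, ∑ i, ∑ j, algebraMap k B (T e i j) * y i * z j = 0

/-- `Q` represents the solutions of a system of bilinear equations. -/
structure Bil {Q ι β σ : Type} [CommRing Q] [Algebra k Q] [Fintype β] [Fintype σ]
    (T : ι → β → σ → k) (y : β → Q) (z : σ → Q) : Prop where
  sol : BSol T y z
  ex : ∀ (B : Type) [CommRing B] [Algebra k B] (y' : β → B) (z' : σ → B), BSol T y' z' →
    ∃ f : Q →ₐ[k] B, (∀ i, f (y i) = y' i) ∧ ∀ j, f (z j) = z' j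
  uniq : ∀ (B : Type) [CommRing B] [Algebra k B] (f g : Q →ₐ[k] B), (∀ i, f (y i) = g (y i)) →
    (∀ j, f (z j) = g (z j)) → f = g

/-- The standard ring. -/
lemma bil_std {ι β σ : Type} [Fintype β] [Fintype σ] (T : ι → β → σ → k) :
    Bil (Q := MvPolynomial (β ⊕ σ) k ⧸ Ideal.span (Set.range fun e => bil β σ (T e))) T
      (fun i => Ideal.Quotient.mk _ (X (Sum.inl i))) (fun j => Ideal.Quotient.mk _ (X (Sum.inr j))) := by
  have hT : ∀ (B : Type) [CommRing B] [Algebra k B] (f : MvPolynomial (β ⊕ σ) k →ₐ[k] B) (e : ι),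
      f (bil β σ (T e)) =
        ∑ i, ∑ j, algebraMap k B (T e i j) * f (X (Sum.inl i)) * f (X (Sum.inr j)) := by
    intro B _ _ f e
    rw [bil_apply, map_sum]
    refine Finset.sum_congr rfl fun i _ => ?_
    rw [map_sum]
    refine Finset.sum_congr rfl fun j _ => ?_
    rw [map_mul, map_mul, ← algebraMap_eq, f.commutes]
  refine ⟨?_, ?_, ?_⟩
  · intro e
    have h1 := hT _ (Ideal.Quotient.mkₐ k (Ideal.span (Set.range fun e => bil β σ (T e)))) e
    have h2 : Ideal.Quotient.mkₐ k (Ideal.span (Set.range fun e => bil β σ (T e)))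
        (bil β σ (T e)) = 0 := Ideal.Quotient.eq_zero_iff_mem.mpr (Ideal.subset_span ⟨e, rfl⟩)
    rw [h2] at h1
    exact h1.symm
  · intro B _ _ y' z' h
    let f : MvPolynomial (β ⊕ σ) k →ₐ[k] B := aeval (Sum.elim y' z')
    have hf1 : ∀ i, f (X (Sum.inl i)) = y' i := fun i => by
      change aeval _ _ = _
      rw [aeval_X, Sum.elim_inl]
    have hf2 : ∀ j, f (X (Sum.inr j)) = z' j := fun j => by
      change aeval _ _ = _
      rw [aeval_X, Sum.elim_inr]
    have hI : ∀ x ∈ Ideal.span (Set.range fun e => bil β σ (T e)), f x = 0 := by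
      have h3 : Ideal.span (Set.range fun e => bil β σ (T e)) ≤ RingHom.ker f := by
        rw [Ideal.span_le]
        rintro _ ⟨e, rfl⟩
        change f _ = 0
        rw [hT]
        simp only [hf1, hf2]
        exact h e
      exact fun x hx => h3 hx
    exact ⟨Ideal.Quotient.liftₐ _ f hI, hf1, hf2⟩
  · intro B _ _ f g h1 h2
    have h3 : f.comp (Ideal.Quotient.mkₐ k _) = g.comp (Ideal.Quotient.mkₐ k _) := by
      apply MvPolynomial.algHom_ext
      rintro (i | j)
      · exact h1 i
      · exact h2 j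
    apply AlgHom.ext
    intro x
    obtain ⟨x, rfl⟩ := Ideal.Quotient.mk_surjective x
    exact congrArg (fun u : MvPolynomial (β ⊕ σ) k →ₐ[k] B => u x) h3

lemma bil_equiv {Q Q' ι β σ : Type} [CommRing Q] [Algebra k Q] [CommRing Q'] [Algebra k Q']
    [Fintype β] [Fintype σ] {T : ι → β → σ → k} {y : β → Q} {z : σ → Q} {y' : β → Q'}
    {z' : σ → Q'} (h : Bil T y z) (h' : Bil T y' z') : Nonempty (Q ≃ₐ[k] Q') := by
  obtain ⟨f, hf1, hf2⟩ := h.ex Q' y' z' h'.sol
  obtain ⟨g, hg1, hg2⟩ := h'.ex Q y z h.sol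
  have h1 : g.comp f = AlgHom.id k Q := by
    refine h.uniq Q _ _ (fun i => ?_) (fun j => ?_)
    · change g (f (y i)) = y i
      rw [hf1, hg1]
    · change g (f (z j)) = z j
      rw [hf2, hg2]
  have h2 : f.comp g = AlgHom.id k Q' := by
    refine h'.uniq Q' _ _ (fun i => ?_) (fun j => ?_)
    · change f (g (y' i)) = y' i
      rw [hg1, hf1]
    · change f (g (z' j)) = z' j
      rw [hg2, hf2]
  exact ⟨AlgEquiv.ofAlgHom f g h2 h1⟩

lemma bil_ft {Q ι β σ : Type} [CommRing Q] [Algebra k Q] [Fintype β] [Fintype σ]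
    {T : ι → β → σ → k} {y : β → Q} {z : σ → Q} (h : Bil T y z) : Algebra.FiniteType k Q := by
  obtain ⟨e⟩ := bil_equiv (bil_std T) h
  have h2 : Algebra.FiniteType k
      (MvPolynomial (β ⊕ σ) k ⧸ Ideal.span (Set.range fun e => bil β σ (T e))) := inferInstance
  exact h2.equiv e

section

variable {Q σ : Type} {a p : ℕ} [CommRing Q] [Algebra k Q] [Fintype σ]
  {T : Fin a → Fin (p + 1) → σ → k} {y : Fin (p + 1) → Q} {z : σ → Q}

/-- The part where the last variable is zero. -/
lemma bil_quot (h : Bil T y z) :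
    Bil (Q := Q ⧸ Ideal.span {y (Fin.last p)}) (fun e i j => T e (Fin.castSucc i) j)
      (fun i => Ideal.Quotient.mk _ (y (Fin.castSucc i))) (fun j => Ideal.Quotient.mk _ (z j)) := by
  have h0 : Ideal.Quotient.mk (Ideal.span {y (Fin.last p)}) (y (Fin.last p)) = 0 :=
    Ideal.Quotient.eq_zero_iff_mem.mpr (Ideal.mem_span_singleton_self _)
  refine ⟨?_, ?_, ?_⟩
  · intro e
    have h1 := congrArg (Ideal.Quotient.mkₐ k (Ideal.span {y (Fin.last p)})) (h.sol e)
    rw [map_zero, Fin.sum_univ_castSucc, map_add, map_sum, map_sum] at h1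
    have h2 : ∑ j, Ideal.Quotient.mkₐ k (Ideal.span {y (Fin.last p)})
        (algebraMap k Q (T e (Fin.last p) j) * y (Fin.last p) * z j) = 0 := by
      refine Finset.sum_eq_zero fun j _ => ?_
      rw [map_mul, map_mul]
      change _ * Ideal.Quotient.mk _ (y (Fin.last p)) * _ = _
      rw [h0, mul_zero, zero_mul]
    rw [h2, add_zero] at h1
    refine Eq.trans (Finset.sum_congr rfl fun i _ => ?_) h1
    rw [map_sum]
    refine Finset.sum_congr rfl fun j _ => ?_
    rw [map_mul, map_mul, AlgHom.commutes]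
    rfl
  · intro B _ _ y' z' h'
    let y'' : Fin (p + 1) → B := Fin.snoc (α := fun _ => B) y' 0
    have hl : y'' (Fin.last p) = 0 := Fin.snoc_last (α := fun _ => B) _ _
    have hc : ∀ i : Fin p, y'' (Fin.castSucc i) = y' i :=
      fun i => Fin.snoc_castSucc (α := fun _ => B) _ _ i
    obtain ⟨f, hf1, hf2⟩ := h.ex B y'' z' (by
      intro e
      rw [Fin.sum_univ_castSucc, hl]
      have h3 : ∑ j, algebraMap k B (T e (Fin.last p) j) * 0 * z' j = 0 :=
        Finset.sum_eq_zero fun j _ => by rw [mul_zero, zero_mul]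
      rw [h3, add_zero]
      simp only [hc]
      exact h' e)
    refine ⟨Ideal.Quotient.liftₐ _ f ?_, fun i => (hf1 _).trans (hc i), hf2⟩
    intro x hx
    obtain ⟨b, rfl⟩ := Ideal.mem_span_singleton'.mp hx
    rw [map_mul, hf1, hl, mul_zero]
  · intro B _ _ f g h1 h2
    have h3 : f.comp (Ideal.Quotient.mkₐ k (Ideal.span {y (Fin.last p)})) =
        g.comp (Ideal.Quotient.mkₐ k (Ideal.span {y (Fin.last p)})) := by
      refine h.uniq B _ _ (fun i => ?_) h2
      induction i using Fin.lastCases with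
      | last =>
        change f (Ideal.Quotient.mk _ _) = g (Ideal.Quotient.mk _ _)
        rw [h0, map_zero, map_zero]
      | cast i => exact h1 i
    apply AlgHom.ext
    intro x
    obtain ⟨x, rfl⟩ := Ideal.Quotient.mk_surjective x
    exact congrArg (fun u : Q →ₐ[k] B => u x) h3

/-- The inhomogeneous linear system with the last variable equal to one. -/
noncomputable def dehom (T : Fin a → Fin (p + 1) → σ → k) :
    List ((σ → MvPolynomial (Fin p) k) × MvPolynomial (Fin p) k) :=
  List.ofFn fun e => (fun j => (∑ i, C (T e (Fin.castSucc i) j) * X i) + C (T e (Fin.last p) j), 0)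

lemma sol_dehom {B : Type} [CommRing B] [Algebra k B] (ψ : MvPolynomial (Fin p) k →ₐ[k] B)
    (w : σ → B) : Sol ψ.toRingHom w (dehom T) ↔ BSol T
      (Fin.snoc (α := fun _ => B) (fun i => ψ (X i)) 1) w := by
  have key : ∀ e, (∑ j, ψ ((∑ i, C (T e (Fin.castSucc i) j) * X i) + C (T e (Fin.last p) j)) * w j =
      ∑ i, ∑ j, algebraMap k B (T e i j) *
        (Fin.snoc (α := fun _ => B) (fun i => ψ (X i)) 1 : Fin (p + 1) → B) i * w j) := by
    intro e
    rw [Finset.sum_comm]
    refine Finset.sum_congr rfl fun j _ => ?_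
    rw [Fin.sum_univ_castSucc, Fin.snoc_last, map_add, map_sum, add_mul, Finset.sum_mul, mul_one,
      ← algebraMap_eq, AlgHom.commutes]
    congr 1
    refine Finset.sum_congr rfl fun i _ => ?_
    rw [Fin.snoc_castSucc, map_mul, AlgHom.commutes]
  unfold Sol dehom BSol
  constructor
  · intro h e
    rw [← key]
    have h2 := h _ (List.mem_ofFn.mpr ⟨e, rfl⟩)
    refine Eq.trans h2 ?_
    exact map_zero ψ
  · intro h e' he'
    obtain ⟨e, rfl⟩ := List.mem_ofFn.mp he'
    refine Eq.trans (key e) ((h e).trans ?_)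
    exact (map_zero ψ).symm

end

end Pool.Agent.U554.TZ
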