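import Pool.Agent.U554.TU.Vars

/-!
# Systems of linear equations over an affine base

`Lin φ z E`: the ring `Q` represents the solutions `z` of the system `E` of linear equations over `A`.
Let `G` be a property of affine schemes of finite type over `k` which holds for an affine scheme if it
holds for a principal closed subscheme and its complement, and which passes to products with affine
spaces. If `G` holds for all locally closed pieces of `Spec A`, then it holds for the schemes of solutions
of all systems of linear equations over `A`.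
-/

set_option autoImplicit false

open MvPolynomial

namespace Pool.Agent.U554.TZ

variable {k : Type} [CommRing k]

/-- `w` is a solution of the linear system `E`. -/
def Sol {A B σ : Type} [CommRing A] [CommRing B] [Fintype σ] (ψ : A →+* B) (w : σ → B)
    (E : List ((σ → A) × A)) : Prop :=
  ∀ e ∈ E, ∑ j, ψ (e.1 j) * w j = ψ e.2

/-- `Q` represents the solutions of the linear system `E` over the `k`-algebra `A`. -/
structure Lin {A Q σ : Type} [CommRing A] [CommRing Q] [Algebra k A] [Algebra k Q] [Fintype σ]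
    (φ : A →ₐ[k] Q) (z : σ → Q) (E : List ((σ → A) × A)) : Prop where
  sol : Sol φ.toRingHom z E
  ex : ∀ (B : Type) [CommRing B] [Algebra k B] (ψ : A →ₐ[k] B) (w : σ → B),
    Sol ψ.toRingHom w E → ∃ f : Q →ₐ[k] B, (∀ a, f (φ a) = ψ a) ∧ ∀ j, f (z j) = w j
  uniq : ∀ (B : Type) [CommRing B] [Algebra k B] (f g : Q →ₐ[k] B), (∀ a, f (φ a) = g (φ a)) →
    (∀ j, f (z j) = g (z j)) → f = g

/-- the equations over another ring -/
def mapE {A B σ : Type} (f : A → B) (E : List ((σ → A) × A)) : List ((σ → B) × B) :=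
  E.map fun e => (fun j => f (e.1 j), f e.2)

lemma length_mapE {A B σ : Type} (f : A → B) (E : List ((σ → A) × A)) :
    (mapE f E).length = E.length := List.length_map _

lemma sol_map {A A' B σ : Type} [CommRing A] [CommRing A'] [CommRing B] [Fintype σ]
    (f : A →+* A') (ψ : A' →+* B) (w : σ → B) (E : List ((σ → A) × A)) :
    Sol ψ w (mapE f E) ↔ Sol (ψ.comp f) w E := by
  unfold Sol mapE
  constructor
  · intro h e he
    exact h _ (List.mem_map_of_mem he)
  · intro h e he
    obtain ⟨e', he', rfl⟩ := List.mem_map.mp he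
    exact h e' he'

section

variable {A Q σ : Type} [CommRing A] [CommRing Q] [Algebra k A] [Algebra k Q] [Fintype σ]
  {φ : A →ₐ[k] Q} {z : σ → Q}

/-- No equations. -/
lemma lin_nil (h : Lin φ z []) : Nonempty (Q ≃ₐ[k] MvPolynomial σ A) := by
  obtain ⟨f, hf1, hf2⟩ := h.ex (MvPolynomial σ A) (IsScalarTower.toAlgHom k A (MvPolynomial σ A)) X
    (fun e he => by cases he)
  let g : MvPolynomial σ A →+* Q := eval₂Hom φ.toRingHom z
  have hg1 : ∀ a, g (C a) = φ a := fun a => eval₂Hom_C _ _ _
  have hg2 : ∀ j, g (X j) = z j := fun j => eval₂Hom_X' _ _ _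
  have hga : ∀ c : k, g (algebraMap k _ c) = algebraMap k Q c := by
    intro c
    have h1 : algebraMap k (MvPolynomial σ A) c = C (algebraMap k A c) := rfl
    rw [h1, hg1, φ.commutes]
  let g' : MvPolynomial σ A →ₐ[k] Q := { g with commutes' := hga }
  have h1 : g'.comp f = AlgHom.id k Q := by
    refine h.uniq Q _ _ (fun a => ?_) (fun j => ?_)
    · change g (f (φ a)) = φ a
      rw [hf1]
      exact hg1 a
    · change g (f (z j)) = z j
      rw [hf2, hg2]
  have h2 : ∀ x, f (g' x) = x := by
    intro x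
    have h3 : f.toRingHom.comp g = RingHom.id _ := by
      apply MvPolynomial.ringHom_ext
      · intro a
        change f (g (C a)) = C a
        rw [hg1, hf1]
        rfl
      · intro j
        change f (g (X j)) = X j
        rw [hg2, hf2]
    exact congrArg (fun u : MvPolynomial σ A →+* MvPolynomial σ A => u x) h3
  exact ⟨AlgEquiv.ofBijective f ⟨Function.LeftInverse.injective (g := g')
    (fun x => congrArg (fun u : Q →ₐ[k] Q => u x) h1), Function.RightInverse.surjective h2⟩⟩

/-- The standard ring of solutions. -/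
lemma lin_std (A σ : Type) [CommRing A] [Algebra k A] [Fintype σ] (E : List ((σ → A) × A)) :
    ∃ (I : Ideal (MvPolynomial σ A)) (φ : A →ₐ[k] (MvPolynomial σ A ⧸ I))
      (z : σ → MvPolynomial σ A ⧸ I), Lin φ z E := by
  let S : Set (MvPolynomial σ A) := {p | ∃ e ∈ E, p = (∑ j, C (e.1 j) * X j) - C e.2}
  let I := Ideal.span S
  let φ : A →ₐ[k] (MvPolynomial σ A ⧸ I) :=
    (Ideal.Quotient.mkₐ k I).comp (IsScalarTower.toAlgHom k A (MvPolynomial σ A))
  have hφ : ∀ a, φ a = Ideal.Quotient.mk I (C a) := fun a => rfl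
  refine ⟨I, φ, fun j => Ideal.Quotient.mk I (X j), ?_, ?_, ?_⟩
  · intro e he
    have h1 : (∑ j, C (e.1 j) * X j) - C e.2 ∈ I := Ideal.subset_span ⟨e, he, rfl⟩
    have h2 := Ideal.Quotient.eq_zero_iff_mem.mpr h1
    rw [map_sub, map_sum, sub_eq_zero] at h2
    change ∑ j, φ (e.1 j) * Ideal.Quotient.mk I (X j) = φ e.2
    rw [hφ, ← h2]
    exact Finset.sum_congr rfl fun j _ => (map_mul (Ideal.Quotient.mk I) _ _).symm
  · intro B _ _ ψ w hw
    let g : MvPolynomial σ A →+* B := eval₂Hom ψ.toRingHom w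
    have hg1 : ∀ a, g (C a) = ψ a := fun a => eval₂Hom_C _ _ _
    have hg2 : ∀ j, g (X j) = w j := fun j => eval₂Hom_X' _ _ _
    have hga : ∀ c : k, g (algebraMap k _ c) = algebraMap k B c := by
      intro c
      have h1 : algebraMap k (MvPolynomial σ A) c = C (algebraMap k A c) := rfl
      rw [h1, hg1, ψ.commutes]
    let g' : MvPolynomial σ A →ₐ[k] B := { g with commutes' := hga }
    have hI : ∀ a ∈ I, g' a = 0 := by
      have h3 : I ≤ RingHom.ker g' := by
        rw [Ideal.span_le]
        rintro _ ⟨e, he, rfl⟩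
        change g _ = 0
        rw [map_sub, map_sum, sub_eq_zero, hg1]
        refine Eq.trans (Finset.sum_congr rfl fun j _ => ?_) (hw e he)
        rw [map_mul, hg1, hg2]
        rfl
      exact fun a ha => h3 ha
    exact ⟨Ideal.Quotient.liftₐ I g' hI, hg1, hg2⟩
  · intro B _ _ f g h1 h2
    apply AlgHom.ext
    intro x
    obtain ⟨x, rfl⟩ := Ideal.Quotient.mk_surjective x
    have h3 : (f.toRingHom.comp (Ideal.Quotient.mk I)) = (g.toRingHom.comp (Ideal.Quotient.mk I)) := by
      apply MvPolynomial.ringHom_ext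
      · exact h1
      · exact h2
    exact congrArg (fun u : MvPolynomial σ A →+* B => u x) h3

/-- Two rings of solutions are isomorphic. -/
lemma lin_equiv {Q' : Type} [CommRing Q'] [Algebra k Q'] {φ' : A →ₐ[k] Q'} {z' : σ → Q'}
    {E : List ((σ → A) × A)} (h : Lin φ z E) (h' : Lin φ' z' E) : Nonempty (Q ≃ₐ[k] Q') := by
  obtain ⟨f, hf1, hf2⟩ := h.ex Q' φ' z' h'.sol
  obtain ⟨g, hg1, hg2⟩ := h'.ex Q φ z h.sol
  have h1 : g.comp f = AlgHom.id k Q := by
    refine h.uniq Q _ _ (fun a => ?_) (fun j => ?_)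
    · change g (f (φ a)) = φ a
      rw [hf1, hg1]
    · change g (f (z j)) = z j
      rw [hf2, hg2]
  have h2 : f.comp g = AlgHom.id k Q' := by
    refine h'.uniq Q' _ _ (fun a => ?_) (fun j => ?_)
    · change f (g (φ' a)) = φ' a
      rw [hg1, hf1]
    · change f (g (z' j)) = z' j
      rw [hg2, hf2]
  exact ⟨AlgEquiv.ofAlgHom f g h2 h1⟩

lemma lin_ft [Algebra.FiniteType k A] {E : List ((σ → A) × A)} (h : Lin φ z E) :
    Algebra.FiniteType k Q := by
  obtain ⟨I, φ', z', h'⟩ := lin_std (k := k) A σ E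
  obtain ⟨e⟩ := lin_equiv h' h
  have h1 : Algebra.FiniteType k (MvPolynomial σ A) :=
    Algebra.FiniteType.trans (S := A) inferInstance inferInstance
  have h2 : Algebra.FiniteType k (MvPolynomial σ A ⧸ I) := inferInstance
  exact h2.equiv e

/-- The closed part. -/
lemma lin_quot {E : List ((σ → A) × A)} (h : Lin φ z E) (c : A) :
    ∃ φ' : (A ⧸ Ideal.span {c}) →ₐ[k] (Q ⧸ Ideal.span {φ c}),
      Lin φ' (fun j => Ideal.Quotient.mk (Ideal.span {φ c}) (z j))
        (mapE (Ideal.Quotient.mk (Ideal.span {c})) E) := by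
  let φ' : (A ⧸ Ideal.span {c}) →ₐ[k] (Q ⧸ Ideal.span {φ c}) :=
    Ideal.Quotient.liftₐ (Ideal.span {c}) ((Ideal.Quotient.mkₐ k (Ideal.span {φ c})).comp φ) (by
      intro a ha
      obtain ⟨b, rfl⟩ := Ideal.mem_span_singleton'.mp ha
      change Ideal.Quotient.mk (Ideal.span {φ c}) (φ (b * c)) = 0
      rw [map_mul]
      exact Ideal.Quotient.eq_zero_iff_mem.mpr
        (Ideal.mul_mem_left _ _ (Ideal.mem_span_singleton_self _)))
  have hφ : ∀ a, φ' (Ideal.Quotient.mk _ a) = Ideal.Quotient.mk _ (φ a) := fun a => rfl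
  refine ⟨φ', ?_, ?_, ?_⟩
  · rw [sol_map]
    intro e he
    have h1 := congrArg (Ideal.Quotient.mk (Ideal.span {φ c})) (h.sol e he)
    rw [map_sum] at h1
    refine Eq.trans (Finset.sum_congr rfl fun j _ => ?_) h1
    exact (map_mul (Ideal.Quotient.mk (Ideal.span {φ c})) _ _).symm
  · intro B _ _ ψ w hw
    rw [sol_map] at hw
    obtain ⟨f, hf1, hf2⟩ := h.ex B (ψ.comp (Ideal.Quotient.mkₐ k _)) w hw
    refine ⟨Ideal.Quotient.liftₐ _ f ?_, ?_, hf2⟩
    · intro a ha
      obtain ⟨b, rfl⟩ := Ideal.mem_span_singleton'.mp ha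
      rw [map_mul, hf1]
      change f b * ψ (Ideal.Quotient.mk _ c) = 0
      rw [Ideal.Quotient.eq_zero_iff_mem.mpr (Ideal.mem_span_singleton_self _), map_zero, mul_zero]
    · intro a
      obtain ⟨a, rfl⟩ := Ideal.Quotient.mk_surjective a
      exact hf1 a
  · intro B _ _ f g h1 h2
    have h3 : f.comp (Ideal.Quotient.mkₐ k (Ideal.span {φ c})) =
        g.comp (Ideal.Quotient.mkₐ k (Ideal.span {φ c})) :=
      h.uniq B _ _ (fun a => h1 (Ideal.Quotient.mk _ a)) h2
    apply AlgHom.ext
    intro x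
    obtain ⟨x, rfl⟩ := Ideal.Quotient.mk_surjective x
    exact congrArg (fun u : Q →ₐ[k] B => u x) h3

/-- The open part. -/
lemma lin_loc {E : List ((σ → A) × A)} (h : Lin φ z E) (c : A) :
    ∃ φ' : Localization.Away c →ₐ[k] Localization.Away (φ c),
      Lin φ' (fun j => algebraMap Q (Localization.Away (φ c)) (z j))
        (mapE (algebraMap A (Localization.Away c)) E) := by
  let ι : Q →ₐ[k] Localization.Away (φ c) := IsScalarTower.toAlgHom k Q _
  let ι' : A →ₐ[k] Localization.Away c := IsScalarTower.toAlgHom k A _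
  have hu : ∀ y : Submonoid.powers c, IsUnit ((ι.comp φ) y) := by
    rintro ⟨_, n, rfl⟩
    change IsUnit (algebraMap Q (Localization.Away (φ c)) (φ (c ^ n)))
    rw [map_pow]
    exact IsLocalization.map_units (M := Submonoid.powers (φ c))
      (Localization.Away (φ c)) ⟨_, n, rfl⟩
  let φ' : Localization.Away c →ₐ[k] Localization.Away (φ c) :=
    IsLocalization.liftAlgHom (M := Submonoid.powers c) (f := ι.comp φ) hu
  have hφ : ∀ a, φ' (algebraMap A _ a) = algebraMap Q _ (φ a) := by
    intro a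
    change IsLocalization.liftAlgHom (M := Submonoid.powers c) (f := ι.comp φ) hu _ = _
    rw [IsLocalization.liftAlgHom_apply, IsLocalization.lift_eq]
    rfl
  refine ⟨φ', ?_, ?_, ?_⟩
  · rw [sol_map]
    intro e he
    have h1 := congrArg (algebraMap Q (Localization.Away (φ c))) (h.sol e he)
    rw [map_sum] at h1
    change ∑ j, φ' (algebraMap A _ (e.1 j)) * algebraMap Q _ (z j) = φ' (algebraMap A _ e.2)
    rw [hφ]
    refine Eq.trans (Finset.sum_congr rfl fun j _ => ?_) h1
    rw [hφ]
    exact (map_mul (algebraMap Q (Localization.Away (φ c))) _ _).symm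
  · intro B _ _ ψ w hw
    rw [sol_map] at hw
    obtain ⟨f, hf1, hf2⟩ := h.ex B (ψ.comp ι') w hw
    have hc : IsUnit (f (φ c)) := by
      rw [hf1]
      exact (IsLocalization.map_units (M := Submonoid.powers c) (Localization.Away c)
        ⟨c, Submonoid.mem_powers c⟩).map ψ
    have hu' : ∀ y : Submonoid.powers (φ c), IsUnit (f y) := by
      rintro ⟨_, n, rfl⟩
      change IsUnit (f ((φ c) ^ n))
      rw [map_pow]
      exact hc.pow n
    let f' : Localization.Away (φ c) →ₐ[k] B :=
      IsLocalization.liftAlgHom (M := Submonoid.powers (φ c)) (f := f) hu'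
    have hf' : ∀ a, f' (algebraMap Q _ a) = f a := by
      intro a
      change IsLocalization.liftAlgHom (M := Submonoid.powers (φ c)) (f := f) hu' _ = _
      rw [IsLocalization.liftAlgHom_apply, IsLocalization.lift_eq]
      rfl
    refine ⟨f', ?_, fun j => by rw [hf', hf2]⟩
    have h4 : (f'.toRingHom.comp φ'.toRingHom) = ψ.toRingHom := by
      apply IsLocalization.ringHom_ext (Submonoid.powers c)
      apply RingHom.ext
      intro a
      change f' (φ' (algebraMap A _ a)) = ψ (algebraMap A _ a)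
      rw [hφ, hf', hf1]
      rfl
    exact fun a => congrArg (fun u : Localization.Away c →+* B => u a) h4
  · intro B _ _ f g h1 h2
    have h3 : f.comp ι = g.comp ι := by
      refine h.uniq B _ _ (fun a => ?_) h2
      change f (algebraMap Q _ (φ a)) = g (algebraMap Q _ (φ a))
      rw [← hφ, h1]
    have h4 : f.toRingHom = g.toRingHom := by
      apply IsLocalization.ringHom_ext (Submonoid.powers (φ c))
      apply RingHom.ext
      intro a
      exact congrArg (fun u : Q →ₐ[k] B => u a) h3
    apply AlgHom.ext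
    intro x
    exact congrArg (fun u : Localization.Away (φ c) →+* B => u x) h4

/-- An equation without variables. -/
lemma lin_const {e : (σ → A) × A} {E : List ((σ → A) × A)} (h : Lin φ z (e :: E))
    (he : ∀ j, e.1 j = 0) :
    ∃ φ' : (A ⧸ Ideal.span {e.2}) →ₐ[k] Q,
      Lin φ' z (mapE (Ideal.Quotient.mk (Ideal.span {e.2})) E) := by
  have h0 : φ e.2 = 0 := by
    have h1 := h.sol e (List.mem_cons_self ..)
    change ∑ j, φ (e.1 j) * z j = φ e.2 at h1
    rw [← h1]
    exact Finset.sum_eq_zero fun j _ => by rw [he, map_zero, zero_mul]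
  let φ' : (A ⧸ Ideal.span {e.2}) →ₐ[k] Q := Ideal.Quotient.liftₐ (Ideal.span {e.2}) φ (by
      intro a ha
      obtain ⟨b, rfl⟩ := Ideal.mem_span_singleton'.mp ha
      rw [map_mul, h0, mul_zero])
  have hφ : ∀ a, φ' (Ideal.Quotient.mk _ a) = φ a := fun a => rfl
  refine ⟨φ', ?_, ?_, ?_⟩
  · rw [sol_map]
    intro e' he'
    exact h.sol e' (List.mem_cons_of_mem _ he')
  · intro B _ _ ψ w hw
    rw [sol_map] at hw
    have h2 : ψ (Ideal.Quotient.mk _ e.2) = 0 := by
      rw [Ideal.Quotient.eq_zero_iff_mem.mpr (Ideal.mem_span_singleton_self _), map_zero]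
    obtain ⟨f, hf1, hf2⟩ := h.ex B (ψ.comp (Ideal.Quotient.mkₐ k _)) w (by
      intro e' he'
      rcases List.mem_cons.mp he' with rfl | he'
      · change ∑ j, ψ (Ideal.Quotient.mk _ (e'.1 j)) * w j = ψ (Ideal.Quotient.mk _ e'.2)
        rw [h2]
        exact Finset.sum_eq_zero fun j _ => by rw [he, map_zero, map_zero, zero_mul]
      · exact hw e' he')
    refine ⟨f, ?_, hf2⟩
    intro a
    obtain ⟨a, rfl⟩ := Ideal.Quotient.mk_surjective a
    exact hf1 a
  · intro B _ _ f g h1 h2
    exact h.uniq B f g (fun a => h1 (Ideal.Quotient.mk _ a)) h2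

end

end Pool.Agent.U554.TZ
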